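import Pool.Agent.W_MP_2972c3_al.Backward

set_option autoImplicit false

namespace Pool.Agent.Results.MP_2972c3_al.ThirdOrderCriterion

open FirstOrder Pool.Agent.W_MP_2972c3_al

universe u

/-- The criterion: the lattices of clones on `A` and on `B` (as ordered sets, under inclusion) are
elementarily equivalent if and only if both `A` and `B` have at most one element, or the sets `A`
and `B` satisfy the same formulas of pure third-order logic. -/
theorem result (A B : Type u) :
    @Language.ElementarilyEquivalent Language.order (Clone A) (Clone B)
        (Language.orderStructure (Clone A)) (Language.orderStructure (Clone B)) ↔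
      (Subsingleton A ∧ Subsingleton B) ∨ ThirdOrderEquiv A B :=
  main A B

end Pool.Agent.Results.MP_2972c3_al.ThirdOrderCriterion
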